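import Mathlib

/-!
# MP_c7af3c_ag, project EDGE, module NRAT: the two-dimensional core
The radical of a rational form q(A, A') built from a pair of vector valued maps
`A ↦ V(l₁ A), V(l₂ A)` consists of common zeros of both maps.  See EDGE/Paper.md, section 3.
-/

set_option autoImplicit false

namespace Pool.Agent.Edge75

open MvPolynomial

variable {Om : Type} [Field Om]

/-- two additive maps with rational product have rational values (after normalisation) -/
theorem two_funct {k : Subfield Om} (hk : ∀ y : Om, IsAlgebraic k y → y ∈ k)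
    {T : Type} [AddCommGroup T] (S : AddSubgroup T) (a c : T →+ Om)
    (hac : ∀ A ∈ S, a A * c A ∈ k) {A₁ : T} (h₁ : A₁ ∈ S) (ha : a A₁ = 1) (hc : c A₁ = 1)
    {A : T} (hA : A ∈ S) : a A ∈ k ∧ c A ∈ k := by
  have hp : a A * c A ∈ k := hac A hA
  have hq : a (A + A₁) * c (A + A₁) ∈ k := hac _ (S.add_mem hA h₁)
  have hs : a A + c A ∈ k := by
    have h2 : a A + c A = a (A + A₁) * c (A + A₁) - a A * c A - 1 := by
      rw [map_add, map_add, ha, hc]; ring
    rw [h2]
    exact k.sub_mem (k.sub_mem hq hp) k.one_mem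
  have ha' : a A ∈ k := by
    apply hk
    refine ⟨Polynomial.X ^ 2 - Polynomial.C (⟨_, hs⟩ : k) * Polynomial.X +
      Polynomial.C (⟨_, hp⟩ : k), ?_, ?_⟩
    · intro h0
      have h3 := congrArg (fun P => Polynomial.coeff P 2) h0
      simp at h3
    · have e1 : algebraMap k Om ⟨_, hs⟩ = a A + c A := rfl
      have e2 : algebraMap k Om ⟨_, hp⟩ = a A * c A := rfl
      simp only [map_add, map_sub, map_mul, map_pow, Polynomial.aeval_X, Polynomial.aeval_C]
      rw [e1, e2]; ring
  refine ⟨ha', ?_⟩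
  have h4 : c A = (a A + c A) - a A := by ring
  rw [h4]
  exact k.sub_mem hs ha'

/-- rational vectors orthogonal to a vector `l` with `l.x = 0`, `x` independent over `k`,
are proportional -/
theorem cross_zero {k : Subfield Om} {x : Fin 3 → Om}
    (hx : ∀ u : Fin 3 → Om, (∀ i, u i ∈ k) → ∑ i, u i * x i = 0 → u = 0)
    {l : Fin 3 → Om} (hl : l ≠ 0) (hlx : ∑ i, l i * x i = 0)
    {v w : Fin 3 → Om} (hv : ∀ i, v i ∈ k) (hw : ∀ i, w i ∈ k)
    (hvl : ∑ i, l i * v i = 0) (hwl : ∑ i, l i * w i = 0) (i j : Fin 3) :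
    v i * w j = v j * w i := by
  rw [Fin.sum_univ_three] at hlx hvl hwl
  have hm : (![v 1 * w 2 - v 2 * w 1, v 2 * w 0 - v 0 * w 2, v 0 * w 1 - v 1 * w 0] :
      Fin 3 → Om) = 0 := by
    apply hx
    · intro i
      fin_cases i
      · exact k.sub_mem (k.mul_mem (hv _) (hw _)) (k.mul_mem (hv _) (hw _))
      · exact k.sub_mem (k.mul_mem (hv _) (hw _)) (k.mul_mem (hv _) (hw _))
      · exact k.sub_mem (k.mul_mem (hv _) (hw _)) (k.mul_mem (hv _) (hw _))
    · rw [Fin.sum_univ_three]
      simp only [Matrix.cons_val_zero, Matrix.cons_val_one, Matrix.cons_val_two]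
      have hne : l 0 ≠ 0 ∨ l 1 ≠ 0 ∨ l 2 ≠ 0 := by
        by_contra hcon
        push Not at hcon
        apply hl
        funext i
        fin_cases i
        · exact hcon.1
        · exact hcon.2.1
        · exact hcon.2.2
      have key : ∀ i, l i * ((v 1 * w 2 - v 2 * w 1) * x 0 + (v 2 * w 0 - v 0 * w 2) * x 1 +
          (v 0 * w 1 - v 1 * w 0) * x 2) = 0 := by
        intro i
        fin_cases i
        · simp only [Fin.zero_eta, Fin.isValue]
          linear_combination (v 1 * w 2 - v 2 * w 1) * hlx +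
            (x 1 * w 2 - x 2 * w 1) * (-hvl) + (x 1 * v 2 - x 2 * v 1) * hwl
        · simp only [Fin.mk_one, Fin.isValue]
          linear_combination (v 2 * w 0 - v 0 * w 2) * hlx +
            (x 2 * w 0 - x 0 * w 2) * (-hvl) + (x 2 * v 0 - x 0 * v 2) * hwl
        · simp only [Fin.reduceFinMk, Fin.isValue]
          linear_combination (v 0 * w 1 - v 1 * w 0) * hlx +
            (x 0 * w 1 - x 1 * w 0) * (-hvl) + (x 0 * v 1 - x 1 * v 0) * hwl
      rcases hne with h | h | h
      · exact (mul_eq_zero.1 (key 0)).resolve_left h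
      · exact (mul_eq_zero.1 (key 1)).resolve_left h
      · exact (mul_eq_zero.1 (key 2)).resolve_left h
  have m0 : v 1 * w 2 - v 2 * w 1 = 0 := congrFun hm 0
  have m1 : v 2 * w 0 - v 0 * w 2 = 0 := congrFun hm 1
  have m2 : v 0 * w 1 - v 1 * w 0 = 0 := congrFun hm 2
  fin_cases i <;> fin_cases j <;>
    simp only [Fin.zero_eta, Fin.mk_one, Fin.reduceFinMk, Fin.isValue] <;>
    first
    | rfl
    | ring1
    | linear_combination m0
    | linear_combination -m0
    | linear_combination m1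
    | linear_combination -m1
    | linear_combination m2
    | linear_combination -m2

/-- a functional with rational values on monomials which kills `l * B` for all `B` is an
evaluation at a rational point -/
theorem functional_ev {k : Subfield Om} {x : Fin 3 → Om}
    (hx : ∀ u : Fin 3 → Om, (∀ i, u i ∈ k) → ∑ i, u i * x i = 0 → u = 0)
    {l : Fin 3 → Om} (hl : l ≠ 0) (hlx : ∑ i, l i * x i = 0) (m : ℕ)
    (c : MvPolynomial (Fin 3) Om →ₗ[Om] Om)
    (hck : ∀ I : Fin 3 →₀ ℕ, I.degree = m + 1 → c (monomial I 1) ∈ k)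
    (hcl : ∀ I : Fin 3 →₀ ℕ, I.degree = m →
      ∑ i, l i * c (X i * monomial I 1) = 0)
    (hc : ∃ I : Fin 3 →₀ ℕ, I.degree = m + 1 ∧ c (monomial I 1) ≠ 0) :
    ∃ z : Fin 3 → Om, (∀ i, z i ∈ k) ∧ z ≠ 0 ∧ ∃ γ : Om, γ ≠ 0 ∧
      ∀ A : MvPolynomial (Fin 3) Om, A.IsHomogeneous (m + 1) → c A = γ * eval z A := by
  obtain ⟨I₁, hI₁, hcI₁⟩ := hc
  -- a variable dividing the monomial
  obtain ⟨i₀, hi₀⟩ : ∃ i, I₁ i ≠ 0 := by
    by_contra hcon
    push Not at hcon
    have : I₁ = 0 := Finsupp.ext hcon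
    rw [this] at hI₁
    simp at hI₁
  set B₀ : Fin 3 →₀ ℕ := I₁ - Finsupp.single i₀ 1 with hB₀
  have hB₀' : B₀ + Finsupp.single i₀ 1 = I₁ := by
    rw [hB₀]
    apply tsub_add_cancel_of_le
    rw [Finsupp.single_le_iff]
    omega
  have hB₀d : B₀.degree = m := by
    have h1 := congrArg Finsupp.degree hB₀'
    rw [map_add, hI₁, Finsupp.degree_single] at h1
    omega
  have hX : ∀ (i : Fin 3) (I : Fin 3 →₀ ℕ),
      (X i * monomial I 1 : MvPolynomial (Fin 3) Om) = monomial (I + Finsupp.single i 1) 1 := by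
    intro i I
    rw [mul_comm, X, monomial_mul, mul_one]
  have hXk : ∀ (i : Fin 3) (I : Fin 3 →₀ ℕ), I.degree = m → c (X i * monomial I 1) ∈ k := by
    intro i I hI
    rw [hX]
    apply hck
    rw [map_add, hI, Finsupp.degree_single]
  -- the point
  set z : Fin 3 → Om := fun i => c (X i * monomial B₀ 1) with hz
  have hzk : ∀ i, z i ∈ k := fun i => hXk i B₀ hB₀d
  have hzi₀ : z i₀ ≠ 0 := by
    rw [hz]
    change c (X i₀ * monomial B₀ 1) ≠ 0
    rw [hX, hB₀']
    exact hcI₁
  have hprop : ∀ (I : Fin 3 →₀ ℕ), I.degree = m → ∀ i j,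
      c (X i * monomial I 1) * z j = c (X j * monomial I 1) * z i := by
    intro I hI i j
    exact cross_zero hx hl hlx (v := fun i => c (X i * monomial I 1)) (w := z)
      (fun i => hXk i I hI) hzk (hcl I hI) (hcl B₀ hB₀d) i j
  -- the values on monomials
  have hmon : ∀ (j : ℕ) (I : Fin 3 →₀ ℕ), I.degree = j → ∀ r, j + r = m + 1 →
      c (monomial (I + Finsupp.single i₀ r) 1) * z i₀ ^ j =
        (I.prod fun i a => z i ^ a) * c (monomial (Finsupp.single i₀ (m + 1)) 1) := by
    intro j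
    induction j with
    | zero =>
      intro I hI r hr
      have hI0 : I = 0 := by
        rw [Finsupp.degree_eq_zero_iff] at hI
        exact hI
      rw [hI0, zero_add, pow_zero, mul_one, Finsupp.prod_zero_index, one_mul]
      rw [show r = m + 1 by omega]
    | succ j ih =>
      intro I hI r hr
      obtain ⟨i, hi⟩ : ∃ i, I i ≠ 0 := by
        by_contra hcon
        push Not at hcon
        have : I = 0 := Finsupp.ext hcon
        rw [this] at hI
        simp at hI
      have hI' : (I - Finsupp.single i 1) + Finsupp.single i 1 = I := by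
        apply tsub_add_cancel_of_le
        rw [Finsupp.single_le_iff]
        omega
      set I' : Fin 3 →₀ ℕ := I - Finsupp.single i 1 with hI'def
      have hI'd : I'.degree = j := by
        have h1 := congrArg Finsupp.degree hI'
        rw [map_add, hI, Finsupp.degree_single] at h1
        omega
      have h2 := ih I' hI'd (r + 1) (by omega)
      have hdeg : (I' + Finsupp.single i₀ r).degree = m := by
        rw [map_add, hI'd, Finsupp.degree_single]
        omega
      have h3 := hprop (I' + Finsupp.single i₀ r) hdeg i i₀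
      rw [hX, hX] at h3
      have e1 : I' + Finsupp.single i₀ r + Finsupp.single i 1 = I + Finsupp.single i₀ r := by
        rw [← hI']; abel
      have e2 : I' + Finsupp.single i₀ r + Finsupp.single i₀ 1 =
          I' + Finsupp.single i₀ (r + 1) := by
        rw [Finsupp.single_add]; abel
      rw [e1, e2] at h3
      have e3 : (I.prod fun i a => z i ^ a) = (I'.prod fun i a => z i ^ a) * z i := by
        have e6 : ((Finsupp.single i 1).prod fun i a => z i ^ a) = z i := by
          refine (Finsupp.prod_single_index ?_).trans (pow_one _)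
          exact pow_zero _
        rw [← hI', Finsupp.prod_add_index' (fun _ => pow_zero _) (fun _ _ _ => pow_add _ _ _)]
        exact congrArg _ e6
      rw [e3, pow_succ]
      linear_combination z i₀ ^ j * h3 + z i * h2
  have hval : ∀ A : MvPolynomial (Fin 3) Om, A.IsHomogeneous (m + 1) →
      c A * z i₀ ^ (m + 1) = eval z A * c (monomial (Finsupp.single i₀ (m + 1)) 1) := by
    intro A hA
    conv_lhs => rw [A.as_sum]
    conv_rhs => rw [eval_eq' z A]
    rw [map_sum, Finset.sum_mul, Finset.sum_mul]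
    refine Finset.sum_congr rfl fun I hI => ?_
    have hId : I.degree = m + 1 := by
      rw [Finsupp.degree_eq_weight_one]
      exact hA (mem_support_iff.1 hI)
    have h4 := hmon (m + 1) I hId 0 (by omega)
    rw [Finsupp.single_zero, add_zero] at h4
    have e4 : (monomial I (coeff I A) : MvPolynomial (Fin 3) Om) =
        coeff I A • monomial I 1 := by
      rw [smul_monomial, smul_eq_mul, mul_one]
    have e5 : (I.prod fun i a => z i ^ a) = ∏ i, z i ^ I i :=
      Finsupp.prod_fintype _ _ fun _ => pow_zero _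
    rw [e4, map_smul, smul_eq_mul, mul_assoc, h4, e5]
    ring
  have hγ : c (monomial (Finsupp.single i₀ (m + 1)) 1) ≠ 0 := by
    intro h0
    have h5 := hval (monomial I₁ 1) (isHomogeneous_monomial _ hI₁)
    rw [h0, mul_zero] at h5
    rcases mul_eq_zero.1 h5 with h6 | h6
    · exact hcI₁ h6
    · exact pow_ne_zero _ hzi₀ h6
  refine ⟨z, hzk, fun h => hzi₀ (by rw [h]; rfl),
    c (monomial (Finsupp.single i₀ (m + 1)) 1) / z i₀ ^ (m + 1),
    div_ne_zero hγ (pow_ne_zero _ hzi₀), fun A hA => ?_⟩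
  have h7 := hval A hA
  field_simp
  linear_combination h7


/-- forms of degree `m` with coefficients in `k` -/
def Rat (k : Subfield Om) (m : ℕ) (A : MvPolynomial (Fin 3) Om) : Prop :=
  A.IsHomogeneous m ∧ ∀ I, coeff I A ∈ k

/-- the linear form with coefficients `u` in three variables -/
noncomputable def lin3 (u : Fin 3 → Om) : MvPolynomial (Fin 3) Om := ∑ i, C (u i) * X i

theorem lin3_mul (u : Fin 3 → Om) (B : MvPolynomial (Fin 3) Om) :
    lin3 u * B = ∑ i, u i • (X i * B) := by
  rw [lin3, Finset.sum_mul]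
  refine Finset.sum_congr rfl fun i _ => ?_
  rw [mul_assoc, smul_eq_C_mul]

theorem lin3_comb (a b : Om) (u v : Fin 3 → Om) :
    lin3 (fun i => a * u i + b * v i) = a • lin3 u + b • lin3 v := by
  simp only [lin3, smul_eq_C_mul, C_add, C_mul, add_mul, Finset.sum_add_distrib, Finset.mul_sum,
    mul_assoc]

section core

variable {k : Subfield Om} (p₁ r₁ p₂ r₂ : MvPolynomial (Fin 3) Om →ₗ[Om] Om)

/-- the polarised form of the pair -/
noncomputable def beta (A A' : MvPolynomial (Fin 3) Om) : Om :=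
  (p₁ A * r₂ A' - r₁ A * p₂ A') + (p₁ A' * r₂ A - r₁ A' * p₂ A)

/-- change of the basis of the linear forms -/
theorem beta_comb (a b c d : Om) (A A' : MvPolynomial (Fin 3) Om) :
    beta (a • p₁ + b • p₂) (a • r₁ + b • r₂) (c • p₁ + d • p₂) (c • r₁ + d • r₂) A A' =
      (a * d - b * c) * beta p₁ r₁ p₂ r₂ A A' := by
  simp only [beta, LinearMap.add_apply, LinearMap.smul_apply, smul_eq_mul]
  ring

/-- a linear functional zero on monomials of degree `m` is zero on forms -/
theorem zero_of_mono {M : Type} [AddCommGroup M] [Module Om M] {m : ℕ}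
    (c : MvPolynomial (Fin 3) Om →ₗ[Om] M)
    (h : ∀ I : Fin 3 →₀ ℕ, I.degree = m → c (monomial I 1) = 0)
    {A : MvPolynomial (Fin 3) Om} (hA : A.IsHomogeneous m) : c A = 0 := by
  rw [A.as_sum, map_sum]
  refine Finset.sum_eq_zero fun I hI => ?_
  have hId : I.degree = m := by
    rw [Finsupp.degree_eq_weight_one]
    exact hA (mem_support_iff.1 hI)
  have e4 : (monomial I (coeff I A) : MvPolynomial (Fin 3) Om) = coeff I A • monomial I 1 := by
    rw [smul_monomial, smul_eq_mul, mul_one]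
  rw [e4, map_smul, h I hId, smul_zero]

/-- the special case of `nrat_core`: `A₀` is killed by the first map -/
theorem nrat_special [CharZero Om] (hk : ∀ y : Om, IsAlgebraic k y → y ∈ k) {x : Fin 3 → Om}
    (hx : ∀ u : Fin 3 → Om, (∀ i, u i ∈ k) → ∑ i, u i * x i = 0 → u = 0) (m : ℕ)
    (l₁ l₂ : Fin 3 → Om) (h₁ : ∑ i, l₁ i * x i = 0) (hl₁ : l₁ ≠ 0)
    (hcp : ∀ B, p₁ (lin3 l₂ * B) = p₂ (lin3 l₁ * B))
    (hcr : ∀ B, r₁ (lin3 l₂ * B) = r₂ (lin3 l₁ * B))
    (S : AddSubgroup (MvPolynomial (Fin 3) Om)) (hSh : ∀ A ∈ S, A.IsHomogeneous (m + 1))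
    (hSm : ∀ I : Fin 3 →₀ ℕ, I.degree = m + 1 → (monomial I 1 : MvPolynomial (Fin 3) Om) ∈ S)
    (t : Om) (ht : t ≠ 0) (hβ : ∀ A ∈ S, beta p₁ r₁ p₂ r₂ A A * t ∈ k)
    {A₁ : MvPolynomial (Fin 3) Om} (hA₁ : A₁ ∈ S) (h1 : beta p₁ r₁ p₂ r₂ A₁ A₁ ≠ 0)
    {A₀ : MvPolynomial (Fin 3) Om}
    (h0 : ∀ A' ∈ S, beta p₁ r₁ p₂ r₂ A₀ A' = 0)
    (hf0 : p₁ A₀ = 0) (hg0 : r₁ A₀ = 0)
    (hne : p₂ A₀ ≠ 0 ∨ r₂ A₀ ≠ 0) :
    ∃ z : Fin 3 → Om, (∀ i, z i ∈ k) ∧ z ≠ 0 ∧ ∀ f : MvPolynomial (Fin 3) Om,
      f.IsHomogeneous (m + 1) → p₂ f = 0 → r₂ f = 0 → eval z f = 0 := by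
  set P : Om := p₂ A₀ with hP
  set R : Om := r₂ A₀ with hR
  -- the first map is proportional to (P, R)
  have hpar : ∀ A' ∈ S, p₁ A' * R - r₁ A' * P = 0 := by
    intro A' hA'
    have h2 := h0 A' hA'
    rw [beta, hf0, hg0, ← hP, ← hR] at h2
    linear_combination h2
  obtain ⟨a, hh⟩ : ∃ a : MvPolynomial (Fin 3) Om →ₗ[Om] Om, ∀ A' ∈ S,
      p₁ A' = a A' * P ∧ r₁ A' = a A' * R := by
    by_cases hP0 : P = 0
    · have hR0 : R ≠ 0 := by
        rcases hne with h3 | h3
        · exact absurd hP0 h3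
        · exact h3
      refine ⟨R⁻¹ • r₁, fun A' hA' => ?_⟩
      have h4 := hpar A' hA'
      rw [hP0, mul_zero, sub_zero] at h4
      have h5 := (mul_eq_zero.1 h4).resolve_right hR0
      rw [LinearMap.smul_apply, smul_eq_mul, h5, hP0]
      constructor
      · ring
      · field_simp
    · refine ⟨P⁻¹ • p₁, fun A' hA' => ?_⟩
      have h4 := hpar A' hA'
      rw [LinearMap.smul_apply, smul_eq_mul]
      constructor
      · field_simp
      · field_simp
        linear_combination -h4
  -- the functionals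
  set ll₁ : MvPolynomial (Fin 3) Om →ₗ[Om] Om := R • p₁ - P • r₁ with hll₁
  set c : MvPolynomial (Fin 3) Om →ₗ[Om] Om := R • p₂ - P • r₂ with hc
  have hll_apply : ∀ q, ll₁ q = R * p₁ q - P * r₁ q := fun q => rfl
  have hc_apply : ∀ q, c q = R * p₂ q - P * r₂ q := fun q => rfl
  have hll0 : ∀ A' ∈ S, ll₁ A' = 0 := by
    intro A' hA'
    rw [hll_apply]
    linear_combination hpar A' hA'
  have hcomm : ∀ B, ll₁ (lin3 l₂ * B) = c (lin3 l₁ * B) := by
    intro B
    rw [hll_apply, hc_apply, hcp, hcr]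
  have hbeta : ∀ A ∈ S, beta p₁ r₁ p₂ r₂ A A = -2 * (a A * c A) := by
    intro A hA
    obtain ⟨e1, e2⟩ := hh A hA
    rw [beta, hc_apply]
    rw [e1, e2]
    ring
  have hne1 : a A₁ * c A₁ ≠ 0 := by
    intro h6
    apply h1
    rw [hbeta A₁ hA₁, h6, mul_zero]
  have ha1 : a A₁ ≠ 0 := left_ne_zero_of_mul hne1
  have hc1 : c A₁ ≠ 0 := right_ne_zero_of_mul hne1
  set a' : MvPolynomial (Fin 3) Om →ₗ[Om] Om := (a A₁)⁻¹ • a with ha'
  set c' : MvPolynomial (Fin 3) Om →ₗ[Om] Om := (c A₁)⁻¹ • c with hc'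
  have ha'_apply : ∀ A, a' A = (a A₁)⁻¹ * a A := fun A => rfl
  have hc'_apply : ∀ A, c' A = (c A₁)⁻¹ * c A := fun A => rfl
  have hrat : ∀ A ∈ S, c' A ∈ k := by
    intro A hA
    refine (two_funct hk S a'.toAddMonoidHom c'.toAddMonoidHom ?_ (A₁ := A₁)
      hA₁ ?_ ?_ (A := A) hA).2
    · intro B hB
      change a' B * c' B ∈ k
      have e3 : a' B * c' B = (beta p₁ r₁ p₂ r₂ B B * t) / (beta p₁ r₁ p₂ r₂ A₁ A₁ * t) := by
        rw [ha'_apply, hc'_apply, hbeta B hB, hbeta A₁ hA₁]
        field_simp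
      rw [e3]
      exact k.div_mem (hβ _ hB) (hβ _ hA₁)
    · change a' A₁ = 1
      rw [ha'_apply, inv_mul_cancel₀ ha1]
    · change c' A₁ = 1
      rw [hc'_apply, inv_mul_cancel₀ hc1]
  have hc'1 : c' A₁ = 1 := by rw [hc'_apply, inv_mul_cancel₀ hc1]
  obtain ⟨z, hzk, hz0, γ, hγ, hev⟩ := functional_ev hx hl₁ h₁ m c'
    (fun I hI => hrat _ (hSm I hI)) (by
      intro I hI
      have e4 : ∑ i, l₁ i * c' (X i * monomial I 1) = c' (lin3 l₁ * monomial I 1) := by
        rw [lin3_mul, map_sum]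
        refine Finset.sum_congr rfl fun i _ => ?_
        rw [map_smul, smul_eq_mul]
      rw [e4, hc'_apply, ← hcomm, lin3_mul, map_sum, Finset.sum_eq_zero, mul_zero]
      intro i _
      rw [map_smul, hll0, smul_zero]
      have e6 : (X i * monomial I 1 : MvPolynomial (Fin 3) Om) =
          monomial (I + Finsupp.single i 1) 1 := by
        rw [mul_comm, X, monomial_mul, mul_one]
      rw [e6]
      refine hSm _ ?_
      rw [map_add, hI, Finsupp.degree_single]) (by
      by_contra hcon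
      push Not at hcon
      have h7 := zero_of_mono c' hcon (hSh _ hA₁)
      rw [hc'1] at h7
      exact one_ne_zero h7)
  refine ⟨z, hzk, hz0, fun f hf hf1 hf2 => ?_⟩
  have h8 : c' f = 0 := by
    rw [hc'_apply, hc_apply f, hf1, hf2, mul_zero, mul_zero, sub_zero, mul_zero]
  rw [hev _ hf] at h8
  exact (mul_eq_zero.1 h8).resolve_left hγ

/-- **Core of NRAT.** The radical of the rational form consists of common zeros of the maps. -/
theorem nrat_core [CharZero Om] (hk : ∀ y : Om, IsAlgebraic k y → y ∈ k) {x : Fin 3 → Om}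
    (hx : ∀ u : Fin 3 → Om, (∀ i, u i ∈ k) → ∑ i, u i * x i = 0 → u = 0) (m : ℕ)
    (l₁ l₂ : Fin 3 → Om) (h₁ : ∑ i, l₁ i * x i = 0) (h₂ : ∑ i, l₂ i * x i = 0)
    (hl : ∀ a b : Om, (fun i => a * l₁ i + b * l₂ i) = 0 → a = 0 ∧ b = 0)
    (hcp : ∀ B, p₁ (lin3 l₂ * B) = p₂ (lin3 l₁ * B))
    (hcr : ∀ B, r₁ (lin3 l₂ * B) = r₂ (lin3 l₁ * B))
    (S : AddSubgroup (MvPolynomial (Fin 3) Om)) (hSh : ∀ A ∈ S, A.IsHomogeneous (m + 1))
    (hSm : ∀ I : Fin 3 →₀ ℕ, I.degree = m + 1 → (monomial I 1 : MvPolynomial (Fin 3) Om) ∈ S)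
    (t : Om) (ht : t ≠ 0) (hβ : ∀ A ∈ S, beta p₁ r₁ p₂ r₂ A A * t ∈ k)
    {A₁ : MvPolynomial (Fin 3) Om} (hA₁ : A₁ ∈ S) (h1 : beta p₁ r₁ p₂ r₂ A₁ A₁ ≠ 0)
    {A₀ : MvPolynomial (Fin 3) Om} (hA₀ : A₀.IsHomogeneous (m + 1))
    (h0 : ∀ A' ∈ S, beta p₁ r₁ p₂ r₂ A₀ A' = 0) :
    ((p₁ A₀ = 0 ∧ r₁ A₀ = 0) ∧ (p₂ A₀ = 0 ∧ r₂ A₀ = 0)) ∨
    ∃ z : Fin 3 → Om, (∀ i, z i ∈ k) ∧ z ≠ 0 ∧ ∀ f : MvPolynomial (Fin 3) Om,
      f.IsHomogeneous (m + 1) → p₁ f = 0 → r₁ f = 0 → p₂ f = 0 → r₂ f = 0 → eval z f = 0 := by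
  -- the general combination
  have gen : ∀ a b c d : Om, a * d - b * c ≠ 0 →
      (a • p₁ + b • p₂) A₀ = 0 → (a • r₁ + b • r₂) A₀ = 0 →
      ((c • p₁ + d • p₂) A₀ ≠ 0 ∨ (c • r₁ + d • r₂) A₀ ≠ 0) →
      ∃ z : Fin 3 → Om, (∀ i, z i ∈ k) ∧ z ≠ 0 ∧ ∀ f : MvPolynomial (Fin 3) Om,
      f.IsHomogeneous (m + 1) → p₁ f = 0 → r₁ f = 0 → p₂ f = 0 → r₂ f = 0 → eval z f = 0 := by
    intro a b c d hdet e1 e2 e3
    have hgo := nrat_special (a • p₁ + b • p₂) (a • r₁ + b • r₂) (c • p₁ + d • p₂)
      (c • r₁ + d • r₂) hk hx m (fun i => a * l₁ i + b * l₂ i) (fun i => c * l₁ i + d * l₂ i)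
      ?_ ?_ ?_ ?_ S hSh hSm (t / (a * d - b * c)) (div_ne_zero ht hdet) ?_ hA₁ ?_ (A₀ := A₀) ?_
      e1 e2 e3
    · obtain ⟨z, hz1, hz2, hz3⟩ := hgo
      refine ⟨z, hz1, hz2, fun f hf f1 f2 f3 f4 => hz3 f hf ?_ ?_⟩
      · rw [LinearMap.add_apply, LinearMap.smul_apply, LinearMap.smul_apply, f1, f3, smul_zero,
          smul_zero, add_zero]
      · rw [LinearMap.add_apply, LinearMap.smul_apply, LinearMap.smul_apply, f2, f4, smul_zero,
          smul_zero, add_zero]
    · have e4 : ∑ i, (a * l₁ i + b * l₂ i) * x i =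
          a * ∑ i, l₁ i * x i + b * ∑ i, l₂ i * x i := by
        rw [Finset.mul_sum, Finset.mul_sum, ← Finset.sum_add_distrib]
        refine Finset.sum_congr rfl fun i _ => ?_
        ring
      rw [e4, h₁, h₂, mul_zero, mul_zero, add_zero]
    · intro e5
      obtain ⟨ha, hb⟩ := hl a b e5
      apply hdet
      rw [ha, hb]
      ring
    · intro B
      rw [lin3_comb, lin3_comb]
      simp only [add_mul, smul_mul_assoc, map_add, map_smul, LinearMap.add_apply,
        LinearMap.smul_apply, smul_eq_mul, hcp]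
      ring
    · intro B
      rw [lin3_comb, lin3_comb]
      simp only [add_mul, smul_mul_assoc, map_add, map_smul, LinearMap.add_apply,
        LinearMap.smul_apply, smul_eq_mul, hcr]
      ring
    · intro A hA
      rw [beta_comb]
      have e6 : (a * d - b * c) * beta p₁ r₁ p₂ r₂ A A * (t / (a * d - b * c)) =
          beta p₁ r₁ p₂ r₂ A A * t := by
        field_simp
      rw [e6]
      exact hβ A hA
    · rw [beta_comb]
      exact mul_ne_zero hdet h1
    · intro A' hA'
      rw [beta_comb, h0 A' hA', mul_zero]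
  have hvan : p₁ A₀ * r₂ A₀ - r₁ A₀ * p₂ A₀ = 0 := by
    have h2 : (r₂ A₀ • p₁ - p₂ A₀ • r₁ + (p₁ A₀ • r₂ - r₁ A₀ • p₂)) A₀ = 0 := by
      refine zero_of_mono _ (fun I hI => ?_) hA₀
      have h3 := h0 _ (hSm I hI)
      rw [beta] at h3
      simp only [LinearMap.add_apply, LinearMap.sub_apply, LinearMap.smul_apply, smul_eq_mul]
      linear_combination h3
    simp only [LinearMap.add_apply, LinearMap.sub_apply, LinearMap.smul_apply, smul_eq_mul] at h2
    have h3 : (2 : Om) * (p₁ A₀ * r₂ A₀ - r₁ A₀ * p₂ A₀) = 0 := by linear_combination h2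
    exact (mul_eq_zero.1 h3).resolve_left two_ne_zero
  have hcomb : ∀ (a b : Om) (q q' : MvPolynomial (Fin 3) Om →ₗ[Om] Om),
      (a • q + b • q') A₀ = a * q A₀ + b * q' A₀ := fun a b q q' => rfl
  by_cases hw1 : p₁ A₀ = 0 ∧ r₁ A₀ = 0
  · by_cases hw2 : p₂ A₀ = 0 ∧ r₂ A₀ = 0
    · exact Or.inl ⟨hw1, hw2⟩
    · right
      refine gen 1 0 0 1 (by simp) ?_ ?_ ?_
      · rw [hcomb, hw1.1]; ring
      · rw [hcomb, hw1.2]; ring
      · rw [hcomb, hcomb, zero_mul, zero_add, one_mul, zero_mul, zero_add, one_mul]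
        by_contra h4
        push Not at h4
        exact hw2 h4
  · right
    -- the second vector is a multiple of the first
    obtain ⟨s, hs1, hs2⟩ : ∃ s : Om, p₂ A₀ = s * p₁ A₀ ∧ r₂ A₀ = s * r₁ A₀ := by
      by_cases hf1 : p₁ A₀ = 0
      · have hg1 : r₁ A₀ ≠ 0 := fun h5 => hw1 ⟨hf1, h5⟩
        rw [hf1, zero_mul, zero_sub, neg_eq_zero] at hvan
        have h6 := (mul_eq_zero.1 hvan).resolve_left hg1
        refine ⟨r₂ A₀ / r₁ A₀, ?_, ?_⟩
        · rw [h6, hf1, mul_zero]
        · field_simp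
      · refine ⟨p₂ A₀ / p₁ A₀, ?_, ?_⟩
        · field_simp
        · field_simp
          linear_combination hvan
    refine gen (-s) 1 1 0 (by simp) ?_ ?_ ?_
    · rw [hcomb, hs1]; ring
    · rw [hcomb, hs2]; ring
    · rw [hcomb, hcomb, one_mul, zero_mul, add_zero, one_mul, zero_mul, add_zero]
      by_contra h7
      push Not at h7
      exact hw1 h7

end core

/-! ### Alternating forms of top degree -/

section alt

variable {Q : Type} [AddCommGroup Q] [Module Om Q] {ι : Type} [Fintype ι] [DecidableEq ι]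

/-- coordinates with respect to a family with nonzero volume -/
theorem vol_coord [Nonempty ι] (ω : Q [⋀^ι]→ₗ[Om] Om) (hd : Module.finrank Om Q = Fintype.card ι)
    (w : ι → Q) (hw : ω w ≠ 0) :
    ∃ c : ι → Q →ₗ[Om] Om, (∀ u, u = ∑ i, c i u • w i) ∧
      ∀ s t : ι, s ≠ t → ∀ u u' : Q, ω (Function.update (Function.update w s u) t u') =
        ω w * (c s u * c t u' - c t u * c s u') := by
  have hli : LinearIndependent Om w := by
    by_contra hcon
    exact hw (ω.map_linearDependent _ hcon)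
  let b := basisOfLinearIndependentOfCardEqFinrank hli hd.symm
  have hb : ∀ i, b i = w i := fun i => by
    rw [coe_basisOfLinearIndependentOfCardEqFinrank]
  refine ⟨fun i => b.coord i, fun u => ?_, ?_⟩
  · conv_lhs => rw [← b.sum_repr u]
    refine Finset.sum_congr rfl fun i _ => ?_
    rw [hb]
    rfl
  · intro s t hst u u'
    have hsum : ∀ u : Q, u = ∑ i, b.coord i u • w i := by
      intro u
      conv_lhs => rw [← b.sum_repr u]
      refine Finset.sum_congr rfl fun i _ => ?_
      rw [hb]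
      rfl
    have h1 : ∀ (s : ι) (u : Q), ω (Function.update w s u) = b.coord s u * ω w := by
      intro s u
      conv_lhs => rw [hsum u]
      rw [ω.map_update_sum, Finset.sum_eq_single s]
      · rw [ω.map_update_smul, Function.update_eq_self, smul_eq_mul]
      · intro i _ his
        rw [ω.map_update_smul, ω.map_update_self _ (Ne.symm his), smul_zero]
      · intro h; exact absurd (Finset.mem_univ _) h
    conv_lhs => rw [hsum u']
    rw [ω.map_update_sum]
    have h2 : ∀ i, ω (Function.update (Function.update w s u) t (b.coord i u' • w i)) =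
        if i = t then b.coord t u' * (b.coord s u * ω w) else
        if i = s then -(b.coord s u' * (b.coord t u * ω w)) else 0 := by
      intro i
      rw [ω.map_update_smul, smul_eq_mul]
      split_ifs with hit his
      · subst hit
        have e1 : Function.update (Function.update w s u) i (w i) = Function.update w s u := by
          funext j
          by_cases hj : j = i
          · subst hj
            rw [Function.update_self, Function.update_of_ne (Ne.symm hst)]
          · rw [Function.update_of_ne hj]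
        rw [e1, h1]
      · subst his
        have e1 : Function.update (Function.update w i u) t (w i) =
            (Function.update w t u) ∘ Equiv.swap i t := by
          funext j
          rw [Function.comp_apply]
          by_cases hj : j = t
          · subst hj
            rw [Function.update_self, Equiv.swap_apply_right, Function.update_of_ne hst]
          · rw [Function.update_of_ne hj]
            by_cases hj' : j = i
            · subst hj'
              rw [Function.update_self, Equiv.swap_apply_left, Function.update_self]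
            · rw [Function.update_of_ne hj', Equiv.swap_apply_of_ne_of_ne hj' hj,
                Function.update_of_ne hj]
        rw [e1, ω.map_swap _ hst, h1]
        ring
      · have e1 : ω (Function.update (Function.update w s u) t (w i)) = 0 := by
          refine ω.map_eq_zero_of_eq _ (i := i) (j := t) ?_ hit
          rw [Function.update_self, Function.update_of_ne hit, Function.update_of_ne his]
        rw [e1, mul_zero]
    rw [Finset.sum_congr rfl fun i _ => h2 i]
    rw [← Finset.sum_subset (Finset.subset_univ ({t, s} : Finset ι))]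
    · rw [Finset.sum_pair (Ne.symm hst), if_pos rfl, if_neg hst, if_pos rfl]
      ring
    · intro i _ hi
      rw [Finset.mem_insert, Finset.mem_singleton, not_or] at hi
      rw [if_neg hi.1, if_neg hi.2]

end alt

end Pool.Agent.Edge75
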