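import Pool.Agent.Lib.MP_c7af3c_ag.EDGE.Iface
import Pool.Agent.Lib.MP_c7af3c_ag.EDGE.H75.NratCore

/-!
# MP_c7af3c_ag, project EDGE, module NRAT (section 3 of EDGE/Paper.md)
-/

set_option autoImplicit false

namespace Pool.Agent.Edge.H75

open MvPolynomial Pool.Agent.Edge75

/-- the integral forms of degree `3 e + 1` as a group -/
noncomputable def intG (Ω : Type) [Field Ω] (e : ℕ) : AddSubgroup (MvPolynomial (Fin 3) Ω) where
  carrier := {A | I3 e A}
  zero_mem' := ⟨isHomogeneous_zero _ _ _, fun I => ⟨0, by simp⟩⟩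
  add_mem' := by
    rintro A B ⟨hA, hA'⟩ ⟨hB, hB'⟩
    refine ⟨hA.add hB, fun I => ?_⟩
    obtain ⟨z, hz⟩ := hA' I
    obtain ⟨z', hz'⟩ := hB' I
    exact ⟨z + z', by rw [coeff_add, hz, hz']; push_cast; rfl⟩
  neg_mem' := by
    rintro A ⟨hA, hA'⟩
    refine ⟨hA.neg, fun I => ?_⟩
    obtain ⟨z, hz⟩ := hA' I
    exact ⟨-z, by rw [coeff_neg, hz]; push_cast; rfl⟩

theorem nrat : NratStatement := by
  intro Ω Q _ _ _ _ k e y v ω he hC A₁ hA₁ hnz
  classical
  have : Nonempty (Fin e ⊕ Fin e) := ⟨Sum.inl ⟨0, by omega⟩⟩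
  obtain ⟨c, hc, hc2⟩ := vol_coord ω (by
    rw [hC.dim, Fintype.card_sum, Fintype.card_fin]; ring) (wv v A₁) hnz
  have hk : ∀ z : Ω, IsAlgebraic k z → z ∈ k := by
    rintro z ⟨p, hp0, hp⟩
    refine hC.kalg z (p.map (algebraMap k Ω)) ?_ ?_ ?_
    · intro h
      exact hp0 ((Polynomial.map_eq_zero_iff (algebraMap k Ω).injective).1 h)
    · intro i
      rw [Polynomial.coeff_map]
      exact (p.coeff i).2
    · rw [Polynomial.eval_map_algebraMap]
      exact hp
  have hIn : ∀ s : Fin e, (Sum.inl s : Fin e ⊕ Fin e) ≠ Sum.inr s := fun s h => by cases h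
  -- the families with one member replaced
  have hfam : ∀ (s : Fin e) (A : MvPolynomial (Fin 3) Ω),
      wv v (Function.update A₁ s A) =
        Function.update (Function.update (wv v A₁) (Sum.inl s) (v 0 A)) (Sum.inr s) (v 1 A) := by
    intro s A
    funext j
    rcases j with j | j
    · rw [Function.update_of_ne (by intro h; cases h)]
      by_cases hj : j = s
      · subst hj
        rw [Function.update_self]
        change v 0 (Function.update A₁ j A j) = _
        rw [Function.update_self]
      · rw [Function.update_of_ne (by intro h; exact hj (Sum.inl.inj h))]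
        change v 0 (Function.update A₁ s A j) = v 0 (A₁ j)
        rw [Function.update_of_ne hj]
    · by_cases hj : j = s
      · subst hj
        rw [Function.update_self]
        change v 1 (Function.update A₁ j A j) = _
        rw [Function.update_self]
      · rw [Function.update_of_ne (by intro h; exact hj (Sum.inr.inj h)),
          Function.update_of_ne (by intro h; cases h)]
        change v 1 (Function.update A₁ s A j) = v 1 (A₁ j)
        rw [Function.update_of_ne hj]
  have hup : ∀ (s : Fin e) (A : MvPolynomial (Fin 3) Ω), I3 e A → ∀ j,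
      I3 e (Function.update A₁ s A j) := by
    intro s A hA j
    by_cases hj : j = s
    · subst hj
      rw [Function.update_self]; exact hA
    · rw [Function.update_of_ne hj]; exact hA₁ j
  by_cases hz : ∃ z : Fin 3 → Ω, (∀ i, z i ∈ k) ∧ z ≠ 0 ∧
    ∀ f : MvPolynomial (Fin 3) Ω, f.IsHomogeneous (3 * e + 1) → v 0 f = 0 → v 1 f = 0 →
      eval z f = 0
  · exact Or.inl hz
  right
  intro A0 hA0 hpol
  -- all coordinates vanish
  have key : ∀ s : Fin e, (c (Sum.inl s) (v 0 A0) = 0 ∧ c (Sum.inr s) (v 0 A0) = 0) ∧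
      (c (Sum.inl s) (v 1 A0) = 0 ∧ c (Sum.inr s) (v 1 A0) = 0) := by
    intro s
    have hcore := nrat_core (k := k) (c (Sum.inl s) ∘ₗ v 0) (c (Sum.inr s) ∘ₗ v 0)
      (c (Sum.inl s) ∘ₗ v 1) (c (Sum.inr s) ∘ₗ v 1) hk hC.yk (3 * e)
      ![-y 1, 1, 0] ![-y 2, 0, 1] ?_ ?_ ?_ ?_ ?_ (intG Ω e) (fun A hA => hA.1) ?_ (ω (wv v A₁))
      hnz ?_ (A₁ := A₁ s) (hA₁ s) ?_ hA0 ?_
    · rcases hcore with h | h
      · exact h
      · exfalso
        obtain ⟨z, hz1, hz2, hz3⟩ := h
        refine hz ⟨z, hz1, hz2, fun f hf h0 h1 => hz3 f hf ?_ ?_ ?_ ?_⟩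
        · rw [LinearMap.comp_apply, h0, map_zero]
        · rw [LinearMap.comp_apply, h0, map_zero]
        · rw [LinearMap.comp_apply, h1, map_zero]
        · rw [LinearMap.comp_apply, h1, map_zero]
    · rw [Fin.sum_univ_three, hC.y0]
      simp
    · rw [Fin.sum_univ_three, hC.y0]
      simp
    · intro a b hab
      have h1 := congrFun hab 1
      have h2 := congrFun hab 2
      exact ⟨by simpa using h1, by simpa using h2⟩
    · intro B
      have e1 : (lin3 ![-y 1, 1, 0] : MvPolynomial (Fin 3) Ω) = X 1 - C (y 1) * X 0 := by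
        rw [lin3, Fin.sum_univ_three]
        simp
        ring
      have e2 : (lin3 ![-y 2, 0, 1] : MvPolynomial (Fin 3) Ω) = X 2 - C (y 2) * X 0 := by
        rw [lin3, Fin.sum_univ_three]
        simp
        ring
      rw [e1, e2, LinearMap.comp_apply, LinearMap.comp_apply, hC.comm]
    · intro B
      have e1 : (lin3 ![-y 1, 1, 0] : MvPolynomial (Fin 3) Ω) = X 1 - C (y 1) * X 0 := by
        rw [lin3, Fin.sum_univ_three]
        simp
        ring
      have e2 : (lin3 ![-y 2, 0, 1] : MvPolynomial (Fin 3) Ω) = X 2 - C (y 2) * X 0 := by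
        rw [lin3, Fin.sum_univ_three]
        simp
        ring
      rw [e1, e2, LinearMap.comp_apply, LinearMap.comp_apply, hC.comm]
    · intro I hI
      refine ⟨isHomogeneous_monomial _ hI, fun J => ?_⟩
      rw [coeff_monomial]
      split_ifs
      · exact ⟨1, by simp⟩
      · exact ⟨0, by simp⟩
    · intro A hA
      have h3 := hC.rat _ (hup s A hA)
      rw [hfam, hc2 _ _ (hIn s)] at h3
      have e3 : beta (c (Sum.inl s) ∘ₗ v 0) (c (Sum.inr s) ∘ₗ v 0) (c (Sum.inl s) ∘ₗ v 1)
          (c (Sum.inr s) ∘ₗ v 1) A A * ω (wv v A₁) =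
          2 * (ω (wv v A₁) * (c (Sum.inl s) (v 0 A) * c (Sum.inr s) (v 1 A) -
            c (Sum.inr s) (v 0 A) * c (Sum.inl s) (v 1 A))) := by
        simp only [beta, LinearMap.comp_apply]
        ring
      rw [e3]
      exact k.mul_mem (by exact_mod_cast natCast_mem k 2) h3
    · have e4 : Function.update A₁ s (A₁ s) = A₁ := Function.update_eq_self _ _
      have h4 := hfam s (A₁ s)
      rw [e4] at h4
      have h5 := hc2 _ _ (hIn s) (v 0 (A₁ s)) (v 1 (A₁ s))
      rw [← h4] at h5
      intro h6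
      apply hnz
      rw [h5]
      simp only [beta, LinearMap.comp_apply] at h6
      have h7 : (2 : Ω) * (c (Sum.inl s) (v 0 (A₁ s)) * c (Sum.inr s) (v 1 (A₁ s)) -
            c (Sum.inr s) (v 0 (A₁ s)) * c (Sum.inl s) (v 1 (A₁ s))) = 0 := by
        linear_combination h6
      rw [(mul_eq_zero.1 h7).resolve_left two_ne_zero, mul_zero]
    · intro A' hA'
      have h8 := hpol A' hA' s
      rw [pol, hfam] at h8
      have e5 : Function.update (Function.update (Function.update (wv v A₁) (Sum.inl s) (v 0 A'))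
          (Sum.inr s) (v 1 A')) (Sum.inl s) (v 0 A0) =
          Function.update (Function.update (wv v A₁) (Sum.inl s) (v 0 A0)) (Sum.inr s)
            (v 1 A') := by
        rw [Function.update_comm (hIn s), Function.update_idem,
          Function.update_comm (hIn s)]
      rw [e5, Function.update_idem, hc2 _ _ (hIn s), hc2 _ _ (hIn s), ← mul_add] at h8
      have h9 := (mul_eq_zero.1 h8).resolve_left hnz
      simp only [beta, LinearMap.comp_apply]
      linear_combination h9
  constructor
  · rw [hc (v 0 A0)]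
    refine Finset.sum_eq_zero fun i _ => ?_
    rcases i with i | i
    · rw [(key i).1.1, zero_smul]
    · rw [(key i).1.2, zero_smul]
  · rw [hc (v 1 A0)]
    refine Finset.sum_eq_zero fun i _ => ?_
    rcases i with i | i
    · rw [(key i).2.1, zero_smul]
    · rw [(key i).2.2, zero_smul]

end Pool.Agent.Edge.H75
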